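import Pool.Agent.MP_ebf981_lc.LNBlock

/-! Averages over the random blocks. -/

namespace Pool.Agent.MP_ebf981_lc.LN

open Finset

variable {n M : ℕ} {q ε β : ℝ}

theorem avg_half (hq : q + M * ε = 1) (c : ℝ) (l : (Fin n → Option (Fin M)) → ℝ) :
    ∑ π, W q ε π * (c * ((1 - l π) / 2)) = c * ((1 - ∑ π, W q ε π * l π) / 2) := by
  have e : ∀ π, W q ε π * (c * ((1 - l π) / 2)) = c / 2 * W q ε π - c / 2 * (W q ε π * l π) :=
    fun π => by ring
  simp only [e, sum_sub_distrib, ← mul_sum, W_sum hq]
  ring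

theorem avg_tau (hq : q + M * ε = 1) (hβ : q * β = ε) (S : Finset (Fin n)) :
    ∑ π : Fin n → Option (Fin M), W q ε π * tau q β π S = q * ((1 - (1 - 2 * ε) ^ S.card) / 2) := by
  have h := avg_prod hq (fun o => 1 - 2 * (if o = none then β else 0)) S
  simp only [if_true, reduceCtorEq, if_false, mul_zero, sub_zero, sum_const, card_univ,
    Fintype.card_fin, nsmul_eq_mul, mul_one] at h
  rw [show q * (1 - 2 * β) + ε * M = 1 - 2 * ε by linear_combination hq - 2 * hβ] at h
  rw [← h]
  exact avg_half hq q fun π => lamN β π S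

theorem avg_sig (hq : q + M * ε = 1) (S : Finset (Fin n)) :
    ∑ π : Fin n → Option (Fin M), W q ε π * sig ε π S =
      M * ε * ((1 - (1 - 2 * ε) ^ S.card) / 2) := by
  have h : ∀ t : Fin M, ∑ π : Fin n → Option (Fin M), W q ε π * (ε * ((1 - lamT π t S) / 2)) =
      ε * ((1 - (1 - 2 * ε) ^ S.card) / 2) := fun t => by
    have h := avg_prod hq (fun o => if o = some t then -1 else 1) S
    have e : ∑ t' : Fin M, (if some t' = some t then (-1 : ℝ) else 1) = M - 2 := by
      rw [sum_congr rfl (g := fun t' => 1 - if t' = t then (2 : ℝ) else 0) fun t' _ => by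
        by_cases a : t' = t <;> norm_num [a]]
      simp
    simp only [e, reduceCtorEq, if_false] at h
    rw [show q * 1 + ε * (M - 2) = 1 - 2 * ε by linear_combination hq] at h
    rw [← h]
    exact avg_half hq ε fun π => lamT π t S
  simp only [sig, mul_sum]
  rw [sum_comm]
  simp only [h, sum_const, card_univ, Fintype.card_fin, nsmul_eq_mul, mul_assoc]

theorem avg_lam0 (hq : q + M * ε = 1) (S : Finset (Fin n)) :
    ∑ π : Fin n → Option (Fin M), W q ε π * lam0 π S =
      E (fun z : Fin M → Bool => (q + ell (fun _ => ε) z) ^ S.card) := by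
  simp only [lam0, ← E_mul]
  rw [← E_sum]
  refine E_congr fun z => ?_
  rw [avg_prod hq (cz z) S]
  simp [cz, ell, mul_sum]

theorem avg_loss (a b : ℝ) (S : Finset (Fin n)) :
    ∑ π : Fin n → Option (Fin M), W q ε π * loss a b ε q β π S =
      a * (ε * ∑ π : Fin n → Option (Fin M), W q ε π * lam0 π S -
        ∑ π : Fin n → Option (Fin M), W q ε π * tau q β π S) +
      b * ∑ π : Fin n → Option (Fin M),
        W q ε π * (tau q β π S * (tau q β π S + 2 * sig ε π S - ε)) := by
  simp only [mul_sum, ← sum_sub_distrib, ← sum_add_distrib]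
  exact sum_congr rfl fun π _ => by unfold loss; ring

theorem loss_one (hq : q + M * ε = 1) (hβ : q * β = ε) (a b : ℝ) {S : Finset (Fin n)}
    (hS : S.card = 1) : ∑ π : Fin n → Option (Fin M), W q ε π * loss a b ε q β π S = 0 := by
  have e1 : E (fun z : Fin M → Bool => (q + ell (fun _ => ε) z) ^ 1) = q := by
    have h1 := mom2 (n := M) (fun _ => ε) (q + 1)
    have h2 := mom2 (n := M) (fun _ => ε) (q - 1)
    have h3 : E (fun z : Fin M → Bool => (q + 1 + ell (fun _ => ε) z) ^ 2 -
        (q - 1 + ell (fun _ => ε) z) ^ 2) =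
        E (fun z : Fin M → Bool => 4 * (q + ell (fun _ => ε) z) ^ 1) := E_congr fun z => by ring
    rw [E_sub, E_mul, h1, h2] at h3
    linarith
  have e2 : ∀ π : Fin n → Option (Fin M),
      tau q β π S * (tau q β π S + 2 * sig ε π S - ε) = 0 := fun π => by
    obtain ⟨j, rfl⟩ := card_eq_one.1 hS
    simp only [tau, sig, lamN, lamT, prod_singleton]
    cases π j with
    | none =>
      simp only [if_true, reduceCtorEq, if_false, sub_self, zero_div, mul_zero, sum_const_zero]
      linear_combination (q * β) * hβ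
    | some t => simp
  rw [avg_loss, avg_lam0 hq, avg_tau hq hβ, hS, e1]
  simp only [e2, mul_zero, sum_const_zero]
  ring

theorem loss_two (hq : q + M * ε = 1) (hβ : q * β = ε) (e0 : 0 < ε) (e1 : ε ≤ 1 / 60) (q0 : ε ≤ q)
    (q1 : q ≤ 2 * ε) {a b μ : ℝ} (a0 : 0 ≤ a) (b0 : 0 ≤ b) (m0 : 0 ≤ μ) (hμ : 1 ≤ μ ∨ ε * n ≤ μ)
    {S : Finset (Fin n)} (hS : 2 ≤ S.card) :
    ∑ π : Fin n → Option (Fin M), W q ε π * loss a b ε q β π S ≤
      (3 / 10 * a + b * (ε + 2 * μ)) * ε * (1 - (1 - 2 * ε) ^ S.card) := by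
  have qp : 0 < q := by linarith
  have β0 : 0 ≤ β := le_of_mul_le_mul_left (by linarith) qp
  have β1 : β ≤ 1 := le_of_mul_le_mul_left (by linarith) qp
  have r1 : (1 - 2 * ε) ^ S.card ≤ (1 - 2 * ε) ^ 2 :=
    pow_le_pow_of_le_one (by linarith) (by linarith) hS
  have h1 : E (fun z : Fin M → Bool => (q + ell (fun _ => ε) z) ^ S.card) ≤ 16 / 15 * ε := by
    refine (E_mono (G := fun z => (q + ell (fun _ => ε) z) ^ 2) fun z => ?_).trans ?_
    · have : |q + ell (fun _ => ε) z| ≤ 1 := by
        refine (abs_add_le _ _).trans ?_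
        have : |ell (fun _ : Fin M => ε) z| ≤ ∑ _t : Fin M, ε :=
          (abs_sum_le_sum_abs _ _).trans (sum_le_sum fun t _ => by
            cases z t <;> simp [sg, abs_of_pos e0])
        rw [sum_const, card_univ, Fintype.card_fin, nsmul_eq_mul] at this
        rw [abs_of_pos qp]
        linarith
      rw [← sq_abs]
      exact (le_abs_self _).trans ((abs_pow _ _).le.trans
        (pow_le_pow_of_le_one (abs_nonneg _) this hS))
    · rw [mom2, sum_const, card_univ, Fintype.card_fin, nsmul_eq_mul]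
      nlinarith
  have h2 : ∑ π : Fin n → Option (Fin M), W q ε π * (tau q β π S * (tau q β π S + 2 * sig ε π S - ε))
      ≤ (ε + 2 * μ) * ∑ π : Fin n → Option (Fin M), W q ε π * tau q β π S := by
    rw [mul_sum]
    refine sum_le_sum fun π _ => ?_
    have hN := abs_le.1 (abs_prod_le S (c := fun j => 1 - 2 * (if π j = none then β else 0))
      fun j => by rw [abs_le]; split_ifs <;> constructor <;> linarith)
    change _ ≤ lamN β π S ∧ lamN β π S ≤ _ at hN
    have t0 : 0 ≤ tau q β π S := mul_nonneg qp.le (by linarith [hN.2])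
    have t1 : tau q β π S ≤ q := mul_le_of_le_one_right qp.le (by linarith [hN.1])
    have hT : ∀ t, (1 - lamT π t S) / 2 ≤ 1 := fun t => by
      have hT := abs_le.1 (abs_prod_le S (c := fun j => if π j = some t then -1 else 1)
        fun j => by split_ifs <;> simp)
      change _ ≤ lamT π t S ∧ _ at hT
      linarith [hT.1]
    have s1 : sig ε π S ≤ μ := by
      rw [sig, ← mul_sum]
      rcases hμ with h | h
      · have := mul_le_mul_of_nonneg_left (sum_le_card_nsmul univ _ 1 fun t _ => hT t) e0.le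
        rw [card_univ, Fintype.card_fin, nsmul_eq_mul] at this
        linarith
      · exact (mul_le_mul_of_nonneg_left (cnt π _ hT fun t ht => by simp [lamT, ht]) e0.le).trans h
    have := mul_le_mul_of_nonneg_left
      (show tau q β π S + 2 * sig ε π S - ε ≤ ε + 2 * μ by linarith)
      (mul_nonneg (W_nonneg qp.le e0.le π) t0)
    linarith
  rw [avg_loss, avg_lam0 hq]
  rw [avg_tau hq hβ] at h2 ⊢
  generalize (1 - 2 * ε) ^ S.card = y at *
  have y1 : 16 / 15 * ε ≤ 3 / 10 * (1 - y) := by nlinarith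
  have y0 : 0 ≤ 1 - y := by linarith
  have k1 := mul_le_mul_of_nonneg_left (h1.trans y1)
    (mul_nonneg a0 e0.le)
  have k2 := mul_le_mul_of_nonneg_left h2 b0
  have k3 := mul_nonneg a0 (mul_nonneg qp.le y0)
  have k4 := mul_le_mul_of_nonneg_left q1
    (mul_nonneg (mul_nonneg b0 y0) (show 0 ≤ ε + 2 * μ by linarith))
  linarith

end Pool.Agent.MP_ebf981_lc.LN
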