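import Pool.Agent.MP_ebf981_lc.LNSpec

/-! Random blocks: the orbit bound and the spectral losses. -/

namespace Pool.Agent.MP_ebf981_lc.LN

open Finset

variable {n M : ℕ}

/-- flip block `t` -/
def bf (π : Fin n → Option (Fin M)) (t : Fin M) (x : Fin n → Bool) : Fin n → Bool :=
  fun j => if π j = some t then !x j else x j

/-- flip the blocks `t` with `z t = false` -/
def act (π : Fin n → Option (Fin M)) (z : Fin M → Bool) (x : Fin n → Bool) : Fin n → Bool :=
  fun j => (π j).elim (x j) fun t => x j == z t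

def cz (z : Fin M → Bool) (o : Option (Fin M)) : ℝ := o.elim 1 fun t => sg (z t)

/-- block sensitivity along the blocks of `π` -/
def bs (f : (Fin n → Bool) → Bool) (π : Fin n → Option (Fin M)) (x : Fin n → Bool) : ℕ :=
  ∑ t, if f (bf π t x) = f x then 0 else 1

def lamT (π : Fin n → Option (Fin M)) (t : Fin M) (S : Finset (Fin n)) : ℝ :=
  ∏ j ∈ S, (if π j = some t then -1 else 1)

def lamN (β : ℝ) (π : Fin n → Option (Fin M)) (S : Finset (Fin n)) : ℝ :=
  ∏ j ∈ S, (1 - 2 * (if π j = none then β else 0))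

noncomputable def lam0 (π : Fin n → Option (Fin M)) (S : Finset (Fin n)) : ℝ :=
  E (fun z => ∏ j ∈ S, cz z (π j))

noncomputable def sig (ε : ℝ) (π : Fin n → Option (Fin M)) (S : Finset (Fin n)) : ℝ :=
  ∑ t, ε * ((1 - lamT π t S) / 2)

noncomputable def tau (q β : ℝ) (π : Fin n → Option (Fin M)) (S : Finset (Fin n)) : ℝ :=
  q * ((1 - lamN β π S) / 2)

theorem sg_beq (a b : Bool) : sg (a == b) = sg b * sg a := by
  cases a <;> cases b <;> simp [sg]

theorem bs_le (f : (Fin n → Bool) → Bool) (π : Fin n → Option (Fin M)) (x : Fin n → Bool) :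
    bs f π x ≤ M := by
  refine le_trans (sum_le_card_nsmul _ _ 1 fun t _ => by split_ifs <;> simp) (by simp)

theorem cnt (π : Fin n → Option (Fin M)) (c : Fin M → ℝ) (h1 : ∀ t, c t ≤ 1)
    (h0 : ∀ t, (∀ j, π j ≠ some t) → c t = 0) : ∑ t, c t ≤ n := by
  have h : ∀ t, c t ≤ ∑ j, if π j = some t then (1 : ℝ) else 0 := fun t => by
    by_cases a : ∃ j, π j = some t
    · obtain ⟨j, hj⟩ := a
      refine (h1 t).trans (le_trans (by simp [hj]) (single_le_sum
        (f := fun j => if π j = some t then (1 : ℝ) else 0)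
        (fun j _ => by split_ifs <;> norm_num) (mem_univ j)))
    · rw [h0 t fun j hj => a ⟨j, hj⟩]
      exact sum_nonneg fun j _ => by split_ifs <;> norm_num
  refine (sum_le_sum fun t _ => h t).trans ?_
  rw [sum_comm]
  refine (sum_le_card_nsmul _ _ 1 fun j _ => ?_).trans (by simp)
  cases π j <;> simp

theorem bs_le' (f : (Fin n → Bool) → Bool) (π : Fin n → Option (Fin M)) (x : Fin n → Bool) :
    (bs f π x : ℝ) ≤ n := by
  rw [bs, Nat.cast_sum]
  refine cnt π _ (fun t => by split_ifs <;> simp) fun t ht => ?_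
  have : bf π t x = x := funext fun j => by simp [bf, ht j]
  simp [this]

theorem bs_eq (f : (Fin n → Bool) → Bool) (ε : ℝ) (π : Fin n → Option (Fin M))
    (x : Fin n → Bool) : ε * bs f π x = sg (f x) * D (fun y => sg (f y)) (sig ε π) x := by
  have e := D_sum (fun y => sg (f y)) (fun _ => ε) (fun t S => (1 - lamT π t S) / 2) x
  change D _ (sig ε π) x = _ at e
  rw [e, bs, Nat.cast_sum, mul_sum, mul_sum]
  refine sum_congr rfl fun t _ => ?_
  have h := shift_eq (fun y => sg (f y)) (fun j => if π j = some t then -1 else 1)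
    (x := x) (x' := bf π t x) fun j => by unfold bf; split_ifs <;> simp [sg_not]
  change _ = D _ (lamT π t) x at h
  rw [D_half, ← h]
  rcases Bool.eq_false_or_eq_true (f x) with a | a <;>
    rcases Bool.eq_false_or_eq_true (f (bf π t x)) with b | b <;> norm_num [a, b, sg]

theorem tau_bd (f : (Fin n → Bool) → Bool) {q β : ℝ} (q0 : 0 ≤ q) (b0 : 0 ≤ β) (b1 : β ≤ 1)
    (π : Fin n → Option (Fin M)) (x : Fin n → Bool) :
    0 ≤ sg (f x) * D (fun y => sg (f y)) (tau q β π) x ∧
      sg (f x) * D (fun y => sg (f y)) (tau q β π) x ≤ q := by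
  have h := abs_le.1 (kv_bound (η := fun j => if π j = none then β else 0)
    (fun j => by split_ifs <;> linarith) (fun j => by split_ifs <;> linarith) f x)
  change _ ≤ _ * D _ (lamN β π) x ∧ _ * D _ (lamN β π) x ≤ _ at h
  have e := D_lin (fun y => sg (f y)) q 0 (fun S => (1 - lamN β π S) / 2) (fun _ => 0) x
  simp only [mul_zero, add_zero, zero_mul] at e
  change D _ (tau q β π) x = _ at e
  rw [e, D_half]
  have s := sg_sq (f x)
  have e2 : sg (f x) * (q * ((sg (f x) - D (fun y => sg (f y)) (lamN β π) x) / 2)) =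
      q * ((1 - sg (f x) * D (fun y => sg (f y)) (lamN β π) x) / 2) := by
    linear_combination q / 2 * s
  rw [e2]
  constructor <;> nlinarith [h.1, h.2]

theorem orbit (f : (Fin n → Bool) → Bool) (π : Fin n → Option (Fin M)) :
    1 - ∑ S, lam0 π S * lam0 π S * hat (fun y => sg (f y)) S ^ 2 ≤ E (fun x => u (bs f π x)) := by
  have inv : ∀ z, Function.Involutive (act π z) := fun z x => by
    ext j
    unfold act
    cases π j with
    | none => rfl
    | some t => simp only [Option.elim]; cases x j <;> cases z t <;> rfl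
  have e1 : ∀ x z, sens (fun z => f (act π z x)) z = bs f π (act π z x) := fun x z => by
    refine sum_congr rfl fun t _ => ?_
    have : act π (flp t z) x = bf π t (act π z x) := by
      ext j
      unfold act bf flp
      cases hj : π j with
      | none => simp [hj]
      | some t' =>
        by_cases h : t' = t
        · subst h
          simp only [hj, Option.elim, Function.update_self, if_true]
          cases x j <;> cases z t' <;> rfl
        · simp [hj, h]
    simp only [this]
  have e2 : ∀ x, E (fun z => sg (f (act π z x))) = D (fun y => sg (f y)) (lam0 π) x := fun x => by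
    have h : ∀ z, sg (f (act π z x)) = D (fun y => sg (f y)) (fun S => ∏ j ∈ S, cz z (π j)) x :=
      fun z => shift_eq (fun y => sg (f y)) (fun j => cz z (π j)) fun j => by
        unfold act cz
        cases π j <;> simp [sg_beq]
    rw [E_congr h, E, mul_sum, ← D_sum]
    congr 1
    ext S
    rw [lam0, E, mul_sum]
  have e3 : E (fun x => u (bs f π x)) = E (fun x => E (fun z => u (bs f π (act π z x)))) := by
    rw [E_swap, ← E_const (n := M) (E (fun x => u (bs f π x)))]
    exact E_congr fun z => (E_invol _ (inv z) (fun x => u (bs f π x))).symm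
  rw [e3, ← E_DD, ← E_const (n := n) 1, ← E_sub]
  refine E_mono fun x => ?_
  have := iso (fun z => f (act π z x))
  simp only [e1, e2] at this
  rw [← pow_two]
  exact this

theorem lam0_sq (π : Fin n → Option (Fin M)) (S : Finset (Fin n)) :
    lam0 π S * lam0 π S = lam0 π S := by
  have h : ∀ w : Fin M → Bool, lam0 π S * ∏ j ∈ S, cz w (π j) = lam0 π S := fun w => by
    have inv : Function.Involutive (fun (z : Fin M → Bool) t => z t == w t) := fun z => by
      ext t
      beta_reduce
      cases z t <;> cases w t <;> rfl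
    rw [mul_comm, lam0, ← E_mul, ← E_invol _ inv (fun z => ∏ j ∈ S, cz z (π j))]
    refine E_congr fun z => ?_
    rw [← prod_mul_distrib]
    exact prod_congr rfl fun j _ => by unfold cz; cases π j <;> simp [sg_beq]
  conv_lhs => enter [2]; rw [lam0]
  rw [← E_mul, E_congr h, E_const]

/-- the spectral loss of the block scheme -/
noncomputable def loss (a b ε q β : ℝ) (π : Fin n → Option (Fin M)) (S : Finset (Fin n)) : ℝ :=
  a * (ε * lam0 π S - tau q β π S) + b * (tau q β π S * (tau q β π S + 2 * sig ε π S - ε))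

theorem EG (f : (Fin n → Bool) → Bool) {a ε : ℝ} (b q β : ℝ) (a0 : 0 ≤ a) (e0 : 0 ≤ ε)
    (π : Fin n → Option (Fin M)) :
    -∑ S, loss a b ε q β π S * hat (fun y => sg (f y)) S ^ 2 ≤
      E (fun x => G a b ε (bs f π x) (sg (f x) * D (fun y => sg (f y)) (tau q β π) x)) := by
  obtain ⟨F, hF⟩ : ∃ F, F = fun y => sg (f y) := ⟨_, rfl⟩
  have o := orbit f π
  have e : ∀ x, G a b ε (bs f π x) (sg (f x) * D (fun y => sg (f y)) (tau q β π) x) =
      a * ε * u (bs f π x) - a * ε + D F (tau q β π) x *
        D F (fun S => (a + b * ε) * 1 + -b * (1 * tau q β π S + 2 * sig ε π S)) x := fun x => by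
    rw [D_lin, D_lin, D_const, G, bs_eq, hF]
    linear_combination (-b * D (fun y => sg (f y)) (tau q β π) x *
      (D (fun y => sg (f y)) (tau q β π) x + 2 * D (fun y => sg (f y)) (sig ε π) x)) * sg_sq (f x)
  rw [E_congr e, E_add, E_sub, E_mul, E_const, E_DD]
  simp only [lam0_sq, ← hF] at o ⊢
  have h := mul_le_mul_of_nonneg_left o (mul_nonneg a0 e0)
  have e2 : ∑ S, loss a b ε q β π S * hat F S ^ 2 = a * ε * ∑ S, lam0 π S * hat F S ^ 2 -
      ∑ S, tau q β π S * ((a + b * ε) * 1 + -b * (1 * tau q β π S + 2 * sig ε π S)) *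
        hat F S ^ 2 := by
    rw [mul_sum, ← sum_sub_distrib]
    exact sum_congr rfl fun S _ => by unfold loss; ring
  rw [e2]
  linarith

end Pool.Agent.MP_ebf981_lc.LN
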