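import Mathlib

/-! Fourier analysis on the discrete cube and the noise operator. -/

namespace Pool.Agent.MP_ebf981_lc.LN

open Finset

variable {n : ℕ}

def sg (b : Bool) : ℝ := if b = true then 1 else -1

noncomputable def E (F : (Fin n → Bool) → ℝ) : ℝ := (1 / 2 : ℝ) ^ n * ∑ x, F x

def chi (S : Finset (Fin n)) (x : Fin n → Bool) : ℝ := ∏ j ∈ S, sg (x j)

def ker (ε : ℝ) (x y : Fin n → Bool) : ℝ := ∏ j, (if y j = x j then 1 - ε else ε)

def T (ε : ℝ) (F : (Fin n → Bool) → ℝ) (x : Fin n → Bool) : ℝ := ∑ y, ker ε x y * F y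

noncomputable def hat (F : (Fin n → Bool) → ℝ) (S : Finset (Fin n)) : ℝ :=
  E (fun x => F x * chi S x)

def ell (a : Fin n → ℝ) (x : Fin n → Bool) : ℝ := ∑ j, a j * sg (x j)

theorem sg_sq (b : Bool) : sg b ^ 2 = 1 := by cases b <;> simp [sg]

theorem sg_not (b : Bool) : sg (!b) = - sg b := by cases b <;> simp [sg]

theorem E_add (F G : (Fin n → Bool) → ℝ) : E (fun x => F x + G x) = E F + E G := by
  simp only [E, sum_add_distrib, mul_add]

theorem E_sub (F G : (Fin n → Bool) → ℝ) : E (fun x => F x - G x) = E F - E G := by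
  simp only [E, sum_sub_distrib, mul_sub]

theorem E_mul (c : ℝ) (F : (Fin n → Bool) → ℝ) : E (fun x => c * F x) = c * E F := by
  simp only [E, ← mul_sum]; ring

theorem E_const (c : ℝ) : E (fun _ : Fin n → Bool => c) = c := by
  simp only [E, sum_const, card_univ, Fintype.card_fun, Fintype.card_bool, Fintype.card_fin,
    nsmul_eq_mul, Nat.cast_pow, Nat.cast_ofNat]
  rw [← mul_assoc, ← mul_pow]
  norm_num

theorem E_mono {F G : (Fin n → Bool) → ℝ} (h : ∀ x, F x ≤ G x) : E F ≤ E G :=
  mul_le_mul_of_nonneg_left (sum_le_sum fun x _ => h x) (by positivity)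

theorem E_nonneg {F : (Fin n → Bool) → ℝ} (h : ∀ x, 0 ≤ F x) : 0 ≤ E F :=
  (E_const 0).symm.le.trans (E_mono h)

theorem E_congr {F G : (Fin n → Bool) → ℝ} (h : ∀ x, F x = G x) : E F = E G := by
  rw [funext h]

theorem E_sum {ι : Type} (s : Finset ι) (F : ι → (Fin n → Bool) → ℝ) :
    E (fun x => ∑ i ∈ s, F i x) = ∑ i ∈ s, E (F i) := by
  simp only [E]
  rw [sum_comm, mul_sum]

theorem E_invol (σ : (Fin n → Bool) → (Fin n → Bool)) (h : Function.Involutive σ)
    (F : (Fin n → Bool) → ℝ) : E (fun x => F (σ x)) = E F := by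
  unfold E
  rw [Equiv.sum_comp h.toPerm F |>.symm]
  rfl

theorem sum_prod (φ : Fin n → Bool → ℝ) :
    ∑ y : Fin n → Bool, ∏ j, φ j (y j) = ∏ j, (φ j true + φ j false) := by
  rw [← Fintype.piFinset_univ, ← prod_univ_sum]
  simp

theorem chi_eq (S : Finset (Fin n)) (x : Fin n → Bool) :
    chi S x = ∏ j, (if j ∈ S then sg (x j) else 1) := by
  rw [chi, prod_ite_mem, univ_inter]

theorem T_chi (ε : ℝ) (S : Finset (Fin n)) (x : Fin n → Bool) :
    T ε (chi S) x = (1 - 2 * ε) ^ S.card * chi S x := by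
  simp only [T, ker, chi_eq, ← prod_mul_distrib]
  rw [sum_prod (fun j b => (if b = x j then 1 - ε else ε) * (if j ∈ S then sg b else 1)),
    ← prod_const, ← univ_inter S, ← prod_ite_mem, ← prod_mul_distrib, univ_inter]
  refine prod_congr rfl fun j _ => ?_
  by_cases h : j ∈ S <;> cases x j <;> simp [h, sg] <;> ring

theorem T_one (ε : ℝ) (x : Fin n → Bool) : ∑ y, ker ε x y = 1 := by
  have := T_chi ε ∅ x
  simpa [T, chi] using this

theorem T_lin (ε s t : ℝ) (F G : (Fin n → Bool) → ℝ) (x : Fin n → Bool) :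
    T ε (fun y => s * F y + t * G y) x = s * T ε F x + t * T ε G x := by
  simp only [T, mul_sum, ← sum_add_distrib]
  exact sum_congr rfl fun y _ => by ring

theorem sum_chi (x y : Fin n → Bool) :
    ∑ S : Finset (Fin n), chi S y * chi S x = if y = x then 2 ^ n else 0 := by
  simp only [chi, ← prod_mul_distrib]
  rw [← powerset_univ, ← prod_one_add]
  split_ifs with h
  · subst h
    simp only [← pow_two, sg_sq]
    norm_num
  · obtain ⟨j, hj⟩ := Function.ne_iff.1 h
    refine prod_eq_zero (mem_univ j) ?_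
    revert hj
    cases x j <;> cases y j <;> simp [sg]

theorem expand (F : (Fin n → Bool) → ℝ) (x : Fin n → Bool) :
    F x = ∑ S, hat F S * chi S x := by
  simp only [hat, E, mul_sum, sum_mul]
  rw [sum_comm]
  simp only [mul_assoc, ← mul_sum, sum_chi, mul_ite, mul_zero, sum_ite_eq', mem_univ, if_true]
  rw [mul_left_comm, ← mul_pow]
  norm_num

theorem planch (F G : (Fin n → Bool) → ℝ) :
    E (fun x => F x * G x) = ∑ S, hat F S * hat G S := by
  rw [E_congr (G := fun x => ∑ S, hat G S * (F x * chi S x)) fun x => by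
    rw [expand G x, mul_sum]; exact sum_congr rfl fun S _ => by ring, E_sum]
  exact sum_congr rfl fun S _ => by rw [E_mul, mul_comm]; rfl

theorem E_sq (F : (Fin n → Bool) → ℝ) : E (fun x => F x ^ 2) = ∑ S, hat F S ^ 2 := by
  simp only [pow_two, planch]

theorem chi_neg (S : Finset (Fin n)) (x : Fin n → Bool) :
    chi S (fun j => !x j) = (-1) ^ S.card * chi S x := by
  simp only [chi, sg_not]
  rw [prod_neg]

theorem hat_parity {F : (Fin n → Bool) → ℝ} {s : ℝ} (h : ∀ x, F (fun j => !x j) = s * F x)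
    {S : Finset (Fin n)} (hS : s * (-1) ^ S.card = -1) : hat F S = 0 := by
  have h1 := E_invol (fun (x : Fin n → Bool) j => !x j) (fun x => by simp)
    (fun x => F x * chi S x)
  have h2 : E (fun x => F (fun j => !x j) * chi S (fun j => !x j)) = -1 * hat F S := by
    rw [hat, ← E_mul]
    exact E_congr fun x => by rw [h, chi_neg]; linear_combination (F x * chi S x) * hS
  rw [h2] at h1
  change _ = hat F S at h1
  linarith

theorem sum_succ (F : (Fin (n + 1) → Bool) → ℝ) :
    ∑ y, F y = ∑ y : Fin n → Bool, (F (Fin.cons true y) + F (Fin.cons false y)) := by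
  rw [← (Fin.consEquiv fun _ => Bool).sum_comp, Fintype.sum_prod_type, sum_comm]
  simp [Fin.consEquiv]

theorem ell_cons (a : Fin (n + 1) → ℝ) (b : Bool) (y : Fin n → Bool) :
    ell a (Fin.cons b y) = a 0 * sg b + ell (fun j => a j.succ) y := by
  simp [ell, Fin.sum_univ_succ]

theorem E_succ (a : Fin (n + 1) → ℝ) (c : ℝ) (k : ℕ) : E (fun x => (c + ell a x) ^ k) =
    (E (fun x => (c + a 0 + ell (fun j => a j.succ) x) ^ k) +
      E (fun x => (c - a 0 + ell (fun j => a j.succ) x) ^ k)) / 2 := by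
  have e : ∀ y : Fin n → Bool, (c + ell a (Fin.cons true y)) ^ k + (c + ell a (Fin.cons false y)) ^ k
      = (c + a 0 + ell (fun j => a j.succ) y) ^ k + (c - a 0 + ell (fun j => a j.succ) y) ^ k := by
    intro y
    simp only [ell_cons, sg, if_true, Bool.false_eq_true, if_false]
    congr 2 <;> ring
  rw [← E_add, E, E, sum_succ, sum_congr rfl fun y _ => e y, pow_succ]
  ring

theorem mom2 (a : Fin n → ℝ) (c : ℝ) :
    E (fun x => (c + ell a x) ^ 2) = c ^ 2 + ∑ j, a j ^ 2 := by
  induction n generalizing c with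
  | zero => simp [ell, E]
  | succ n ih => rw [E_succ, ih, ih]; simp only [Fin.sum_univ_succ]; ring

theorem mom4 (a : Fin n → ℝ) (c : ℝ) : E (fun x => (c + ell a x) ^ 4) =
    c ^ 4 + 6 * c ^ 2 * ∑ j, a j ^ 2 + (3 * (∑ j, a j ^ 2) ^ 2 - 2 * ∑ j, a j ^ 4) := by
  induction n generalizing c with
  | zero => simp [ell, E]
  | succ n ih => rw [E_succ, ih, ih]; simp only [Fin.sum_univ_succ]; ring

end Pool.Agent.MP_ebf981_lc.LN
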