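import Pool.Agent.MP_ebf981_lc.LNFour

/-! A square-root isoperimetric inequality on the cube. -/

namespace Pool.Agent.MP_ebf981_lc.LN

open Finset

noncomputable def u (h : ℕ) : ℝ := Real.sqrt (2 * h - 1)

def flp {M : ℕ} (t : Fin M) (z : Fin M → Bool) : Fin M → Bool := Function.update z t (!z t)

/-- one-sided sensitivity -/
def hs {M : ℕ} (g : (Fin M → Bool) → Bool) (z : Fin M → Bool) : ℕ :=
  ∑ t, if g z = true ∧ g (flp t z) = false then 1 else 0

/-- sensitivity -/
def sens {M : ℕ} (g : (Fin M → Bool) → Bool) (z : Fin M → Bool) : ℕ :=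
  ∑ t, if g (flp t z) = g z then 0 else 1

def ind (b : Bool) : ℝ := if b = true then 1 else 0

theorem u_zero : u 0 = 0 := by
  unfold u
  exact Real.sqrt_eq_zero_of_nonpos (by norm_num)

theorem u_nonneg (h : ℕ) : 0 ≤ u h := Real.sqrt_nonneg _

theorem u_mono {h k : ℕ} (hk : h ≤ k) : u h ≤ u k := by
  have : (h : ℝ) ≤ k := by exact_mod_cast hk
  exact Real.sqrt_le_sqrt (by linarith)

theorem u_sq {h : ℕ} (hh : 1 ≤ h) : u h ^ 2 = 2 * h - 1 := by
  have : (1 : ℝ) ≤ h := by exact_mod_cast hh
  exact Real.sq_sqrt (by linarith)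

theorem u_step (h : ℕ) {d : ℝ} (d1 : d ≤ 1 / 2) :
    (1 - 2 * d ^ 2) * u h + 2 * d ≤ u (h + 1) := by
  have e1 := u_sq (h := h + 1) (by omega)
  have p1 := u_nonneg (h + 1)
  push_cast at e1
  rcases Nat.eq_zero_or_pos h with rfl | hh
  · rw [u_zero]
    simp only [Nat.cast_zero] at e1
    nlinarith
  · have e0 := u_sq hh
    have p0 := u_nonneg h
    have : (1 : ℝ) ≤ h := by exact_mod_cast hh
    generalize u h = x at *
    generalize u (h + 1) = y at *
    have x1 : 1 ≤ x := by nlinarith
    have k : 1 / (2 * x) + x ≤ y := by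
      refine abs_le_of_sq_le_sq' ?_ p1 |>.2
      have : 1 / (2 * x) ≤ 1 / 2 := one_div_le_one_div_of_le (by norm_num) (by linarith)
      have h2 : 1 / (2 * x) * x = 1 / 2 := by field_simp
      have h3 : 0 ≤ 1 / (2 * x) := by positivity
      nlinarith
    have k2 : 2 * d - 2 * d ^ 2 * x ≤ 1 / (2 * x) := by
      rw [le_div_iff₀ (by linarith)]
      nlinarith [sq_nonneg (2 * d * x - 1)]
    linarith

theorem E_half {M : ℕ} (F : (Fin (M + 1) → Bool) → ℝ) :
    E F = (E (fun y => F (Fin.cons true y)) + E (fun y => F (Fin.cons false y))) / 2 := by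
  rw [← E_add, E, E, sum_succ, pow_succ]
  ring

theorem hs_cons {M : ℕ} (g : (Fin (M + 1) → Bool) → Bool) (b : Bool) (y : Fin M → Bool) :
    hs g (Fin.cons b y) = hs (fun y => g (Fin.cons b y)) y +
      if g (Fin.cons b y) = true ∧ g (Fin.cons (!b) y) = false then 1 else 0 := by
  simp only [hs, Fin.sum_univ_succ, flp, Fin.cons_zero, Fin.update_cons_zero, Fin.cons_succ,
    Fin.cons_update]
  rw [add_comm]

theorem iso_real {a b x y z : ℝ} (b0 : 0 ≤ b) (ba : b ≤ a)
    (hx : 2 * a * (1 - a) ≤ x) (hy : 2 * b * (1 - b) ≤ y)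
    (hz : ∀ d, 0 ≤ d → d ≤ 1 / 2 → (1 - 2 * d ^ 2) * x + 2 * d * (a - b) ≤ z) :
    2 * ((a + b) / 2) * (1 - (a + b) / 2) ≤ (z + y) / 2 := by
  rcases le_total (a - b) (1 / 2) with h | h
  · have h1 := hz (a - b) (by linarith) h
    have h2 : 0 ≤ 1 - 2 * (a - b) ^ 2 := by nlinarith
    have h3 := mul_le_mul_of_nonneg_left hx h2
    nlinarith [mul_nonneg (sq_nonneg (a - b)) (sq_nonneg (2 * a - 1))]
  · have h1 := hz (1 / 2) (by norm_num) le_rfl
    nlinarith [mul_nonneg b0 (show 0 ≤ 2 * a - b - 1 by linarith)]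

theorem iso_step {M : ℕ} (A B : (Fin M → Bool) → Bool) (hA hB : (Fin M → Bool) → ℕ)
    (ha : 2 * E (fun y => ind (A y)) * (1 - E (fun y => ind (A y))) ≤ E (fun y => u (hA y)))
    (hb : 2 * E (fun y => ind (B y)) * (1 - E (fun y => ind (B y))) ≤ E (fun y => u (hB y)))
    (h : E (fun y => ind (B y)) ≤ E (fun y => ind (A y))) :
    2 * ((E (fun y => ind (A y)) + E (fun y => ind (B y))) / 2) *
        (1 - (E (fun y => ind (A y)) + E (fun y => ind (B y))) / 2) ≤
      (E (fun y => u (hA y + if A y = true ∧ B y = false then 1 else 0)) +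
        E (fun y => u (hB y + if B y = true ∧ A y = false then 1 else 0))) / 2 := by
  refine iso_real (E_nonneg fun y => by unfold ind; split_ifs <;> norm_num) h ha
    (hb.trans (E_mono fun y => u_mono (Nat.le_add_right _ _))) fun d d0 d1 => ?_
  rw [← E_sub, ← E_mul, ← E_mul, ← E_add]
  refine E_mono fun y => ?_
  have h1 := u_step (hA y) d1
  have h2 := mul_nonneg (sq_nonneg d) (u_nonneg (hA y))
  cases A y <;> cases B y <;> simp [ind] <;> linarith

theorem iso_one (M : ℕ) (g : (Fin M → Bool) → Bool) :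
    2 * E (fun y => ind (g y)) * (1 - E (fun y => ind (g y))) ≤ E (fun y => u (hs g y)) := by
  induction M with
  | zero =>
    refine le_trans (le_of_eq ?_) (E_nonneg fun y => u_nonneg _)
    simp only [E, pow_zero, one_mul, Fintype.sum_unique, ind]
    split_ifs <;> norm_num
  | succ M ih =>
    rw [E_half (fun y => ind (g y)), E_half (fun y => u (hs g y))]
    simp only [hs_cons, Bool.not_true, Bool.not_false]
    rcases le_total (E (fun y => ind (g (Fin.cons false y))))
      (E (fun y => ind (g (Fin.cons true y)))) with h | h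
    · exact iso_step _ _ _ _ (ih _) (ih _) h
    · have := iso_step _ _ _ _ (ih _) (ih _) h
      linarith

theorem iso {M : ℕ} (g : (Fin M → Bool) → Bool) :
    1 - E (fun y => sg (g y)) ^ 2 ≤ E (fun y => u (sens g y)) := by
  have h1 := iso_one M g
  have h2 := iso_one M (fun y => !g y)
  have e1 : E (fun y => ind (g y)) = 1 / 2 + 1 / 2 * E (fun y => sg (g y)) := by
    rw [← E_mul, ← E_const (n := M) (1 / 2), ← E_add]
    exact E_congr fun y => by cases g y <;> norm_num [ind, sg, E_const]
  have e2 : E (fun y => ind (!g y)) = 1 / 2 - 1 / 2 * E (fun y => sg (g y)) := by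
    rw [← E_mul, ← E_const (n := M) (1 / 2), ← E_sub]
    exact E_congr fun y => by cases g y <;> norm_num [ind, sg, E_const]
  have e3 : E (fun y => u (sens g y)) =
      E (fun y => u (hs g y)) + E (fun y => u (hs (fun y => !g y) y)) := by
    rw [← E_add]
    refine E_congr fun y => ?_
    rcases Bool.eq_false_or_eq_true (g y) with hy | hy
    · have a : hs g y = sens g y := sum_congr rfl fun t _ => by
        rcases Bool.eq_false_or_eq_true (g (flp t y)) with h | h <;> simp [h, hy]
      have b : hs (fun y => !g y) y = 0 := by simp [hs, hy]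
      rw [a, b, u_zero, add_zero]
    · have a : hs (fun y => !g y) y = sens g y := sum_congr rfl fun t _ => by
        rcases Bool.eq_false_or_eq_true (g (flp t y)) with h | h <;> simp [h, hy]
      have b : hs g y = 0 := by simp [hs, hy]
      rw [a, b, u_zero, zero_add]
  rw [e1] at h1
  rw [e2] at h2
  rw [e3]
  nlinarith

end Pool.Agent.MP_ebf981_lc.LN
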