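import Pool.Agent.MP_ebf981_lc.LNAvg

/-! The dictator is optimal among balanced functions at low noise. -/

namespace Pool.Agent.MP_ebf981_lc.LN

open Finset

variable {n : ℕ}

noncomputable def th (ε : ℝ) (S : Finset (Fin n)) : ℝ := (1 - (1 - 2 * ε) ^ S.card) / 2

theorem gain {ε : ℝ} (e0 : 0 ≤ ε) (e1 : ε ≤ 1 / 60) {k : ℕ} (hk : 2 ≤ k) :
    ε * (1 - ε) / 2 - ε / 8 + 1 / 50 * (1 - (1 - 2 * ε) ^ k) ≤
      (1 - (1 - 2 * ε) ^ k) / 2 * (3 / 8 * 1 + -1 / 2 * ((1 - (1 - 2 * ε) ^ k) / 2)) := by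
  obtain ⟨ρ, hρ⟩ : ∃ ρ, ρ = 1 - 2 * ε := ⟨_, rfl⟩
  have r0 : 29 / 30 ≤ ρ := by linarith
  have h1 : ρ ^ k ≤ ρ ^ 2 := pow_le_pow_of_le_one (by linarith) (by linarith) hk
  have h0 : 0 ≤ ρ ^ k := by positivity
  rw [← hρ, show ε = (1 - ρ) / 2 by linarith]
  generalize ρ ^ k = y at *
  have r1 : ρ ≤ 1 := by linarith
  have h2 : 1 - y ≤ 5 / 2 * (ρ - y) := by nlinarith
  have h3 : 0 ≤ ρ - y := by nlinarith
  nlinarith [mul_nonneg h3 h0, mul_nonneg h3 (sub_nonneg.2 r0)]

theorem core (f : (Fin n → Bool) → Bool) (hf : hat (fun y => sg (f y)) ∅ = 0) {m : ℕ}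
    (hm : 1 ≤ m) {ε μ w : ℝ} (e0 : 0 < ε) (re : ((m : ℝ) + 1) * ε ≤ 1 / 30) (w0 : 0 ≤ w)
    (hw : 2 * ((m : ℝ) + 1) ^ 2 * ε * μ ≤ w ^ 2)
    (hK : 31 / 30 * w + 21 / 10 * (((m : ℝ) + 1) * ε) ≤ 3 / 25) (hμ : 1 ≤ μ ∨ ε * n ≤ μ) :
    E (fun x => (sg (f x) * D (fun y => sg (f y)) (th ε) x) ^ (m + 1) +
      (1 - sg (f x) * D (fun y => sg (f y)) (th ε) x) ^ (m + 1)) ≤
      ε ^ (m + 1) + (1 - ε) ^ (m + 1) := by
  have m1 : (1 : ℝ) ≤ m := by exact_mod_cast hm
  have e1 : ε ≤ 1 / 60 := by nlinarith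
  have m0 : 0 ≤ μ := hμ.elim (fun h => by linarith) fun h => le_trans (by positivity) h
  obtain ⟨p0, p1⟩ := slope_bd hm e0.le re
  obtain ⟨M, hM⟩ : ∃ M : ℕ, ⌊1 / ε⌋₊ = M + 1 :=
    Nat.exists_eq_succ_of_ne_zero (Nat.floor_pos.2 ((one_le_div e0).2 (by linarith))).ne'
  have M1 : ((M : ℝ) + 1) * ε ≤ 1 := by
    have := Nat.floor_le (show 0 ≤ 1 / ε by positivity)
    rw [hM, le_div_iff₀ e0] at this
    exact_mod_cast this
  have M2 : 1 ≤ ((M : ℝ) + 1 + 1) * ε := by
    have := (Nat.lt_floor_add_one (1 / ε)).le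
    rw [hM, div_le_iff₀ e0] at this
    exact_mod_cast this
  obtain ⟨q, hq⟩ : ∃ q : ℝ, q + M * ε = 1 := ⟨1 - M * ε, by ring⟩
  have q0 : ε ≤ q := by linarith
  have q1 : q ≤ 2 * ε := by linarith
  have qp : 0 < q := by linarith
  obtain ⟨β, hβ⟩ : ∃ β : ℝ, q * β = ε := ⟨ε / q, by field_simp⟩
  have β0 : 0 ≤ β := le_of_mul_le_mul_left (by linarith) qp
  have β1 : β ≤ 1 := le_of_mul_le_mul_left (by linarith) qp
  obtain ⟨a, ha⟩ : ∃ a, a = slope m ε + ((m : ℝ) + 1) ^ 2 * ε := ⟨_, rfl⟩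
  obtain ⟨b, hb⟩ : ∃ b, b = ((m : ℝ) + 1) ^ 2 := ⟨_, rfl⟩
  have b0 : 0 ≤ b := by rw [hb]; positivity
  have a0 : 0 ≤ a := by rw [ha]; linarith
  have ab : (3 / 10 * a + b * (ε + 2 * μ)) * ε ≤ 1 / 50 := by
    have h1 := mul_le_mul_of_nonneg_right p1 e0.le
    have x0 : 0 ≤ ((m : ℝ) + 1) * ε := by positivity
    have h2 := mul_le_mul_of_nonneg_left re x0
    have h3 := mul_le_mul_of_nonneg_left hK w0
    have h4 := mul_nonneg w0 x0
    rw [ha, hb]
    linarith
  have pt : ∀ x, ∑ π : Fin n → Option (Fin M), W q ε π * G a b ε (bs f π x)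
      (sg (f x) * D (fun y => sg (f y)) (tau q β π) x) ≤
      Phi (m + 1) (sg (f x) * D (fun y => sg (f y)) (th ε) x) - Phi (m + 1) ε := fun x => by
    have hs : ∀ π : Fin n → Option (Fin M), ε * bs f π x ≤ M * ε := fun π => by
      rw [mul_comm]
      exact mul_le_mul_of_nonneg_right (by exact_mod_cast bs_le f π x) e0.le
    have hs' : ∀ π : Fin n → Option (Fin M), ε * bs f π x ≤ μ := fun π =>
      hμ.elim (fun h => by linarith [hs π])
        fun h => (mul_le_mul_of_nonneg_left (bs_le' f π x) e0.le).trans h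
    have ht := fun π : Fin n → Option (Fin M) => tau_bd f qp.le β0 β1 π x
    have hW := fun π : Fin n → Option (Fin M) => W_nonneg qp.le e0.le π
    have av : sg (f x) * D (fun y => sg (f y)) (th ε) x = ∑ π : Fin n → Option (Fin M), W q ε π *
        (ε * bs f π x + sg (f x) * D (fun y => sg (f y)) (tau q β π) x) := by
      have e : th ε = fun S : Finset (Fin n) => ∑ π : Fin n → Option (Fin M),
          W q ε π * (1 * sig ε π S + 1 * tau q β π S) := funext fun S => by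
        simp only [one_mul, mul_add, sum_add_distrib, avg_sig hq, avg_tau hq hβ, th]
        linear_combination -((1 - (1 - 2 * ε) ^ S.card) / 2) * hq
      rw [e, D_sum, mul_sum]
      exact sum_congr rfl fun π _ => by rw [D_lin, bs_eq]; ring
    generalize sg (f x) * D (fun y => sg (f y)) (th ε) x = t at *
    have t0 : 0 ≤ t := av ▸ sum_nonneg fun π _ =>
      mul_nonneg (hW π) (add_nonneg (by positivity) (ht π).1)
    have t1 : t ≤ 1 := by
      rw [av, ← W_sum (n := n) hq]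
      exact sum_le_sum fun π _ => mul_le_of_le_one_right (hW π) (by linarith [hs π, (ht π).2])
    obtain ⟨α, γ, h1, h2⟩ := affine (t := t) (y := Phi (m + 1) t - Phi (m + 1) ε) e0.le
      (by linarith) re w0 hw hK p0 p1 (by linarith [Phi_quad m e0.le (by linarith) t0 t1]) fun h => by
        have h3 := Phi_ge (r := m + 1) (by omega) t0 t1 (by exact_mod_cast h)
        have h4 := Phi_le (m + 1) e0.le (by linarith)
        push_cast at h4
        linarith
    rw [← ha, ← hb] at h2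
    refine le_trans (sum_le_sum fun π _ => mul_le_mul_of_nonneg_left (h2 _ _
      (hs' π) (ht π).1 (by linarith [(ht π).2])) (hW π)) (le_trans (le_of_eq ?_) h1)
    rw [av, mul_sum, ← mul_one α, ← W_sum (n := n) hq, mul_sum, ← sum_add_distrib]
    exact sum_congr rfl fun π _ => by rw [← mul_sum, W_sum hq]; ring
  have h1 := E_mono pt
  rw [E_sum, E_sub, E_const] at h1
  have h2 := (sum_le_sum fun (π : Fin n → Option (Fin M)) _ => (mul_le_mul_of_nonneg_left
    (EG f b q β a0 e0.le π) (W_nonneg qp.le e0.le π)).trans (E_mul _ _).ge).trans h1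
  obtain ⟨F, hF⟩ : ∃ F, F = fun y => sg (f y) := ⟨_, rfl⟩
  have one : ∑ S, hat F S ^ 2 = 1 := by
    rw [← E_sq, hF]
    simp only [sg_sq, E_const]
  have e : ∀ x, (sg (f x) * D F (th ε) x) ^ (m + 1) + (1 - sg (f x) * D F (th ε) x) ^ (m + 1) =
      1 - Phi (m + 1) (sg (f x) * D F (th ε) x) -
        D F (th ε) x * D F (fun S => 3 / 8 * 1 + -1 / 2 * th ε S) x := fun x => by
    rw [D_lin, D_const, Phi, hF]
    linear_combination (1 / 2 * D (fun y => sg (f y)) (th ε) x ^ 2) * sg_sq (f x)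
  rw [← hF] at h2 hf ⊢
  rw [E_congr e, E_sub, E_sub, E_const, E_DD]
  have h3 : ∑ S, (ε * (1 - ε) / 2 - ε / 8 + ∑ π : Fin n → Option (Fin M),
      W q ε π * loss a b ε q β π S) * hat F S ^ 2 ≤
      ∑ S, th ε S * (3 / 8 * 1 + -1 / 2 * th ε S) * hat F S ^ 2 := sum_le_sum fun S _ => by
    rcases Nat.lt_trichotomy S.card 1 with h | h | h
    · rw [card_eq_zero.1 (show S.card = 0 by omega), hf]
      simp
    · rw [loss_one hq hβ a b h, th, h]
      exact le_of_eq (by ring)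
    · refine mul_le_mul_of_nonneg_right ?_ (sq_nonneg _)
      have k1 := loss_two hq hβ e0 e1 q0 q1 a0 b0 m0 hμ h
      have k2 := gain e0.le e1 h
      have k3 : 0 ≤ 1 - (1 - 2 * ε) ^ S.card :=
        sub_nonneg.2 (pow_le_one₀ (by linarith) (by linarith))
      have k4 := mul_le_mul_of_nonneg_right ab k3
      unfold th
      linarith
  have h4 : ∑ π : Fin n → Option (Fin M), W q ε π * -∑ S, loss a b ε q β π S * hat F S ^ 2 =
      -∑ S, (∑ π : Fin n → Option (Fin M), W q ε π * loss a b ε q β π S) * hat F S ^ 2 := by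
    simp only [mul_neg, sum_neg_distrib, mul_sum, sum_mul, mul_assoc]
    rw [sum_comm]
  simp only [add_mul, sum_add_distrib, ← mul_sum, one] at h3
  rw [h4] at h2
  unfold Phi at h2 ⊢
  linarith

theorem agree_eq (ε : ℝ) (f : (Fin n → Bool) → Bool) {r : ℕ} (hr : 0 < r) :
    (∑ x : Fin n → Bool, ∑ y : Fin r → Fin n → Bool,
        (1/2 : ℝ) ^ n * (∏ i, ∏ j, (if y i j = x j then 1 - ε else ε)) *
        (if ∀ i i', f (y i) = f (y i') then (1 : ℝ) else 0)) =
      (1 / 2) ^ r * E (fun x => (1 + T ε (fun y => sg (f y)) x) ^ r +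
        (1 - T ε (fun y => sg (f y)) x) ^ r) := by
  rw [← E_mul, E, mul_sum]
  refine sum_congr rfl fun x _ => ?_
  have ind : ∀ y : Fin r → Fin n → Bool, (if ∀ i i', f (y i) = f (y i') then (1 : ℝ) else 0) =
      ∏ i, (1 / 2 * 1 + 1 / 2 * sg (f (y i))) + ∏ i, (1 / 2 * 1 + -1 / 2 * sg (f (y i))) := by
    intro y
    split_ifs with h
    · have e : ∀ i, f (y i) = f (y ⟨0, hr⟩) := fun i => h _ _
      simp only [e]
      cases f (y ⟨0, hr⟩) <;> simp [sg, hr.ne'] <;> norm_num [hr.ne']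
    · push Not at h
      obtain ⟨i, i', h⟩ := h
      cases hi : f (y i) <;> cases hi' : f (y i') <;> simp only [hi, hi', ne_eq, not_true] at h
      · rw [prod_eq_zero (mem_univ i) (by norm_num [hi, sg]),
          prod_eq_zero (mem_univ i') (by norm_num [hi', sg]), add_zero]
      · rw [prod_eq_zero (mem_univ i') (by norm_num [hi', sg]),
          prod_eq_zero (mem_univ i) (by norm_num [hi, sg]), add_zero]
  have one : T ε (fun _ => 1) x = 1 := by simpa [T] using T_one ε x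
  have pw : ∀ c : ℝ, ∑ y : Fin r → Fin n → Bool, (∏ i, ker ε x (y i)) *
      ∏ i, (1 / 2 * 1 + c * sg (f (y i))) = (1 / 2 + c * T ε (fun y => sg (f y)) x) ^ r := by
    intro c
    simp only [← prod_mul_distrib]
    rw [← Fintype.piFinset_univ, ← prod_univ_sum (fun _ => univ)
      (fun _ z => ker ε x z * (1 / 2 * 1 + c * sg (f z)))]
    have := T_lin ε (1 / 2) c (fun _ => 1) (fun y => sg (f y)) x
    rw [one, mul_one] at this
    rw [prod_const, card_univ, Fintype.card_fin, ← this]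
    simp only [T, mul_one]
  simp only [ind, mul_assoc, ← mul_sum]
  congr 1
  simp only [mul_add, sum_add_distrib]
  change ∑ y : Fin r → Fin n → Bool, (∏ i, ker ε x (y i)) * _ +
    ∑ y : Fin r → Fin n → Bool, (∏ i, ker ε x (y i)) * _ = _
  rw [pw, pw, ← mul_pow, ← mul_pow]
  congr 2 <;> ring

theorem half_form (ε : ℝ) (r : ℕ) (f : (Fin n → Bool) → Bool) :
    (1 / 2) ^ r * E (fun x => (1 + T ε (fun y => sg (f y)) x) ^ r +
      (1 - T ε (fun y => sg (f y)) x) ^ r) =
    E (fun x => (sg (f x) * D (fun y => sg (f y)) (th ε) x) ^ r +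
      (1 - sg (f x) * D (fun y => sg (f y)) (th ε) x) ^ r) := by
  rw [← E_mul]
  refine E_congr fun x => ?_
  have h : T ε (fun y => sg (f y)) x = _ := kv_D (fun _ => ε) (fun y => sg (f y)) x
  have h2 : D (fun y => sg (f y)) (th ε) x = _ :=
    D_half (fun y => sg (f y)) (fun S => (1 - 2 * ε) ^ S.card) x
  simp only [prod_const] at h
  rw [h2, ← h, mul_add, ← mul_pow, ← mul_pow]
  cases f x
  · congr 2 <;> simp only [sg, Bool.false_eq_true, if_false] <;> ring
  · rw [add_comm]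
    congr 2 <;> simp only [sg, if_true] <;> ring

theorem main (r n : ℕ) (ε : ℝ) (h0 : 0 < ε) (hx : (ε * r) ^ 2 * min (5 * (n : ℝ)) (1 / ε) ≤ 1 / 200)
    (P : ((Fin n → Bool) → Bool) → ℝ)
    (hP : ∀ f : (Fin n → Bool) → Bool, P f = ∑ x : Fin n → Bool, ∑ y : Fin r → Fin n → Bool,
        (1/2 : ℝ) ^ n * (∏ i, ∏ j, (if y i j = x j then 1 - ε else ε)) *
        (if ∀ i i', f (y i) = f (y i') then (1 : ℝ) else 0))
    (i : Fin n) (f : (Fin n → Bool) → Bool)
    (hf : (∀ x, f (fun j => !x j) = !f x) ∨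
      (univ.filter fun x => f x = true).card = (univ.filter fun x => f x = false).card) :
    P f ≤ P (fun x => x i) := by
  rcases r with _ | m
  · simp [hP]
  have hf0 : hat (fun y => sg (f y)) ∅ = 0 := by
    rcases hf with hf | hf
    · exact hat_parity (s := -1) (fun x => by rw [hf, sg_not]; ring) (by simp)
    · have e : ∀ x, sg (f x) * chi ∅ x =
          (if f x = true then 1 else 0) - (if f x = false then 1 else 0) := fun x => by
        cases f x <;> simp [sg, chi]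
      simp only [hat, E, e, sum_sub_distrib, sum_boole, hf, sub_self, mul_zero]
  have hd : ∀ x : Fin n → Bool, sg (x i) * D (fun y => sg (y i)) (th ε) x = ε := fun x => by
    have e : (fun y : Fin n → Bool => sg (y i)) = chi {i} := by
      ext y
      simp [chi]
    have e2 : D (fun y => sg (y i)) (th ε) x = ε * sg (x i) := by
      rw [e]
      simp [D, hat_chi, th, chi]
    rw [e2]
    linear_combination ε * sg_sq (x i)
  have key := fun g : (Fin n → Bool) → Bool =>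
    ((hP g).trans (agree_eq ε g (Nat.add_one_pos m))).trans (half_form ε (m + 1) g)
  rw [key, key]
  simp only [hd, E_const]
  rcases Nat.eq_zero_or_pos m with rfl | hm
  · simp [E_const]
  have m1 : (1 : ℝ) ≤ m := by exact_mod_cast hm
  push_cast at hx
  rcases min_cases (5 * (n : ℝ)) (1 / ε) with ⟨h, -⟩ | ⟨h, -⟩ <;> rw [h] at hx
  · have n1 : (1 : ℝ) ≤ n := by exact_mod_cast i.pos
    have x1 : ((m : ℝ) + 1) * ε ≤ 4 / 125 := by
      refine (abs_le_of_sq_le_sq' ?_ (by norm_num)).2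
      nlinarith [mul_le_mul_of_nonneg_left n1 (sq_nonneg (ε * (m + 1)))]
    exact core f hf0 hm (μ := ε * n) (w := 9 / 200) h0 (by linarith) (by norm_num) (by linarith)
      (by linarith) (Or.inr le_rfl)
  · have e : (ε * ((m : ℝ) + 1)) ^ 2 * (1 / ε) = (m + 1) ^ 2 * ε := by field_simp
    rw [e] at hx
    have x1 : ((m : ℝ) + 1) * ε ≤ 1 / 400 := by nlinarith
    exact core f hf0 hm (μ := 1) (w := 1 / 10) h0 (by linarith) (by norm_num) (by linarith)
      (by linarith) (Or.inl le_rfl)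

end Pool.Agent.MP_ebf981_lc.LN
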