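import Pool.Agent.MP_ebf981_lc.LNIso

/-! One-variable inequalities for the low-noise theorem. -/

namespace Pool.Agent.MP_ebf981_lc.LN

noncomputable def Phi (r : ℕ) (t : ℝ) : ℝ := 1 - t ^ r - (1 - t) ^ r - t * (1 - t) / 2 + t / 8

noncomputable def slope (m : ℕ) (ε : ℝ) : ℝ :=
  (m + 1) * ((1 - ε) ^ m - ε ^ m) - (1 - 2 * ε) / 2 + 1 / 8

noncomputable def G (a b ε : ℝ) (s : ℕ) (τ : ℝ) : ℝ :=
  a * (ε * u s + τ - ε) - b * (τ * (τ + 2 * (ε * s) - ε))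

theorem taylor (m : ℕ) {x y : ℝ} (x0 : 0 ≤ x) (x1 : x ≤ 1) (y0 : 0 ≤ y) (y1 : y ≤ 1) :
    y ^ (m + 1) - x ^ (m + 1) - (m + 1) * x ^ m * (y - x) ≤ m * (m + 1) / 2 * (y - x) ^ 2 := by
  induction m with
  | zero => simp
  | succ m ih =>
    have h1 := mul_le_mul_of_nonneg_left ih y0
    have h2 : y * (m * (m + 1) / 2 * (y - x) ^ 2) ≤ m * (m + 1) / 2 * (y - x) ^ 2 :=
      mul_le_of_le_one_left (by positivity) y1
    have h3 : x ^ m * ((m + 1) * (y - x) ^ 2) ≤ (m + 1) * (y - x) ^ 2 :=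
      mul_le_of_le_one_left (by positivity) (pow_le_one₀ x0 x1)
    push_cast
    have e : y ^ (m + 1 + 1) - x ^ (m + 1 + 1) - (m + 1 + 1) * x ^ (m + 1) * (y - x) =
        y * (y ^ (m + 1) - x ^ (m + 1) - (m + 1) * x ^ m * (y - x)) +
          x ^ m * ((m + 1) * (y - x) ^ 2) := by ring
    rw [e]
    linarith

theorem Phi_quad (m : ℕ) {ε t : ℝ} (e0 : 0 ≤ ε) (e1 : ε ≤ 1) (t0 : 0 ≤ t) (t1 : t ≤ 1) :
    Phi (m + 1) ε + slope m ε * (t - ε) - (m + 1) ^ 2 * (t - ε) ^ 2 ≤ Phi (m + 1) t := by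
  have h1 := taylor m e0 e1 t0 t1
  have h2 := taylor m (x := 1 - ε) (y := 1 - t) (by linarith) (by linarith) (by linarith)
    (by linarith)
  have h3 : (0 : ℝ) ≤ (m + 1) * (t - ε) ^ 2 := by positivity
  unfold Phi slope
  nlinarith [sq_nonneg (t - ε)]

theorem slope_bd {m : ℕ} (hm : 1 ≤ m) {ε : ℝ} (e0 : 0 ≤ ε) (e1 : (m + 1) * ε ≤ 1 / 30) :
    4 / 5 * ((m : ℝ) + 1) ≤ slope m ε + (m + 1) ^ 2 * ε ∧ slope m ε ≤ m + 1 := by
  have m1 : (1 : ℝ) ≤ m := by exact_mod_cast hm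
  have e2 : ε ≤ 1 / 60 := by nlinarith
  have h1 : 1 + m * (-ε) ≤ (1 + -ε) ^ m := one_add_mul_le_pow (by linarith) m
  have h2 : ε ^ m ≤ ε ^ 1 := pow_le_pow_of_le_one e0 (by linarith) hm
  have h3 : (1 - ε) ^ m ≤ 1 := pow_le_one₀ (by linarith) (by linarith)
  have h4 : 0 ≤ ε ^ m := by positivity
  rw [← sub_eq_add_neg] at h1
  unfold slope
  constructor
  · have : 1 - (m + 1) * ε ≤ (1 - ε) ^ m - ε ^ m := by linarith
    have := mul_le_mul_of_nonneg_left this (show (0 : ℝ) ≤ m + 1 by linarith)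
    linarith
  · have : (1 - ε) ^ m - ε ^ m ≤ 1 := by linarith
    nlinarith

theorem Phi_le (r : ℕ) {ε : ℝ} (e0 : 0 ≤ ε) (e1 : ε ≤ 1 / 2) : Phi r ε ≤ r * ε := by
  have h1 : 1 + r * (-ε) ≤ (1 + -ε) ^ r := one_add_mul_le_pow (by linarith) r
  have h4 : 0 ≤ ε ^ r := by positivity
  rw [← sub_eq_add_neg] at h1
  unfold Phi
  nlinarith

theorem Phi_ge {r : ℕ} (hr : 2 ≤ r) {t : ℝ} (t0 : 0 ≤ t) (t1 : t ≤ 1) (h : 1 / 5 ≤ r * t) :
    3 / 25 ≤ Phi r t := by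
  have h1 : t ^ r ≤ t ^ 2 := pow_le_pow_of_le_one t0 t1 hr
  unfold Phi
  rcases le_total t (1 / 10) with c | c
  · have h2 : 1 + r * t ≤ (1 + t) ^ r := one_add_mul_le_pow (by linarith) r
    have h3 : (1 - t) ^ r * (1 + t) ^ r ≤ 1 := by
      rw [← mul_pow]
      exact pow_le_one₀ (by nlinarith) (by nlinarith)
    have h4 : 0 ≤ (1 - t) ^ r := pow_nonneg (by linarith) r
    have h5 : (1 - t) ^ r ≤ 5 / 6 := by nlinarith
    nlinarith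
  · have h2 : (1 - t) ^ r ≤ (1 - t) ^ 2 := pow_le_pow_of_le_one (by linarith) (by linarith) hr
    nlinarith

theorem u_le {s : ℕ} (hs : 1 ≤ s) : u s ≤ (3 * s + 1) / 4 := by
  refine (abs_le_of_sq_le_sq' ?_ (by positivity)).2
  rw [u_sq hs]
  rcases Nat.eq_or_lt_of_le hs with rfl | h
  · norm_num
  · have : (2 : ℝ) ≤ s := by exact_mod_cast h
    nlinarith

theorem G_small {r ε p τ : ℝ} (s : ℕ) (e0 : 0 ≤ ε) (r0 : 0 ≤ r) (h3 : 4 / 5 * r ≤ p + r ^ 2 * ε)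
    (h : r * (ε * s) ≤ 1 / 5) : G (p + r ^ 2 * ε) (r ^ 2) ε s τ ≤
      p * (ε * s + τ - ε) - r ^ 2 * (ε * s + τ - ε) ^ 2 := by
  have key : r ^ 2 * (ε * s) * (s - 1) ≤ (p + r ^ 2 * ε) * (s - u s) := by
    rcases Nat.eq_zero_or_pos s with rfl | hs
    · simp [u_zero]
    · have h1 := u_le hs
      have s1 : (1 : ℝ) ≤ s := by exact_mod_cast hs
      have h2 : r ^ 2 * (ε * s) ≤ r / 5 := by nlinarith
      have h4 := mul_le_mul_of_nonneg_right h2 (show 0 ≤ (s : ℝ) - 1 by linarith)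
      have h5 := mul_le_mul h3 (show ((s : ℝ) - 1) / 4 ≤ s - u s by linarith) (by linarith)
        (by linarith)
      linarith
  have := mul_le_mul_of_nonneg_left key e0
  unfold G
  linarith

theorem G_le {r ε p τ μ w : ℝ} (s : ℕ) (e0 : 0 ≤ ε) (r0 : 0 ≤ r) (re : r * ε ≤ 1 / 30)
    (w0 : 0 ≤ w) (hw : 2 * r ^ 2 * ε * μ ≤ w ^ 2) (hK : 31 / 30 * w + 21 / 10 * (r * ε) ≤ 3 / 25)
    (a0 : 0 ≤ p + r ^ 2 * ε) (p1 : p ≤ r) (hs : ε * s ≤ μ) (t0 : 0 ≤ τ) (t1 : τ ≤ 2 * ε) :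
    G (p + r ^ 2 * ε) (r ^ 2) ε s τ ≤ 3 / 25 - r * ε := by
  have v0 : 0 ≤ ε * u s := mul_nonneg e0 (u_nonneg s)
  have s0 : 0 ≤ ε * s := by positivity
  have w1 : (ε * u s) ^ 2 ≤ 2 * ε * μ := by
    have := mul_le_mul_of_nonneg_left hs e0
    rcases Nat.eq_zero_or_pos s with rfl | h
    · simpa [u_zero] using mul_nonneg (mul_nonneg zero_le_two e0) (s0.trans hs)
    · rw [mul_pow, u_sq h]
      nlinarith
  have w2 : r * (ε * u s) ≤ w := by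
    refine (abs_le_of_sq_le_sq' ?_ w0).2
    rw [mul_pow]
    linarith [mul_le_mul_of_nonneg_left w1 (sq_nonneg r)]
  have a1 : p + r ^ 2 * ε ≤ 31 / 30 * r := by linarith [mul_le_mul_of_nonneg_left re r0]
  have h1 : (p + r ^ 2 * ε) * (ε * u s + τ - ε) ≤ 31 / 30 * r * (ε * u s + ε) :=
    le_trans (mul_le_mul_of_nonneg_left (by linarith) a0)
      (mul_le_mul_of_nonneg_right a1 (by linarith))
  have h2 : -(τ * (τ + 2 * (ε * s) - ε)) ≤ 2 * ε ^ 2 := by nlinarith [mul_nonneg t0 s0]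
  have h3 := mul_le_mul_of_nonneg_left h2 (sq_nonneg r)
  have h4 := mul_le_mul_of_nonneg_left re (mul_nonneg r0 e0)
  unfold G
  linarith

theorem affine {r ε p t y μ w : ℝ} (e0 : 0 ≤ ε) (r0 : 0 < r) (re : r * ε ≤ 1 / 30)
    (w0 : 0 ≤ w) (hw : 2 * r ^ 2 * ε * μ ≤ w ^ 2) (hK : 31 / 30 * w + 21 / 10 * (r * ε) ≤ 3 / 25)
    (p0 : 4 / 5 * r ≤ p + r ^ 2 * ε) (p1 : p ≤ r)
    (hq : p * (t - ε) - r ^ 2 * (t - ε) ^ 2 ≤ y) (hb : 1 / 5 ≤ r * t → 3 / 25 - r * ε ≤ y) :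
    ∃ α β : ℝ, α + β * t ≤ y ∧ ∀ (s : ℕ) (τ : ℝ), ε * s ≤ μ → 0 ≤ τ → τ ≤ 2 * ε →
      G (p + r ^ 2 * ε) (r ^ 2) ε s τ ≤ α + β * (ε * s + τ) := by
  rcases le_total (1 / 5) (r * t) with c | c
  · exact ⟨3 / 25 - r * ε, 0, by linarith [hb c], fun s τ hs t0 t1 => by
      linarith [G_le s e0 r0.le re w0 hw hK (by linarith) p1 hs t0 t1]⟩
  obtain ⟨β, hβ⟩ : ∃ β, β = p - 2 * r ^ 2 * (t - ε) := ⟨_, rfl⟩
  have tan : ∀ v, p * (v - ε) - r ^ 2 * (v - ε) ^ 2 ≤ y - β * t + β * v := fun v => by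
    have := mul_nonneg (sq_nonneg r) (sq_nonneg (v - t))
    rw [hβ]
    linarith
  refine ⟨y - β * t, β, by linarith, fun s τ hs t0 t1 => ?_⟩
  rcases le_total (r * (ε * s)) (1 / 5) with d | d
  · exact (G_small s e0 r0.le p0 d).trans (tan _)
  · refine (G_le s e0 r0.le re w0 hw hK (by linarith) p1 hs t0 t1).trans ?_
    obtain ⟨v, hv⟩ : ∃ v, r * v = 1 / 5 := ⟨1 / 5 / r, by field_simp⟩
    have b0 : 0 ≤ β := by
      have h1 := mul_le_mul_of_nonneg_left c r0.le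
      have h2 := mul_nonneg (sq_nonneg r) e0
      rw [hβ]
      linarith
    have v1 : v ≤ ε * s + τ := by
      have : v ≤ ε * s := le_of_mul_le_mul_left (by linarith) r0
      linarith
    have v2 : 0 ≤ v - ε := le_of_mul_le_mul_left (by linarith) r0
    have h1 := mul_le_mul_of_nonneg_left v1 b0
    have h2 := mul_le_mul_of_nonneg_right p0 v2
    have h3 := tan v
    have e : r ^ 2 * v * (v - ε) = 1 / 5 * (1 / 5 - r * ε) := by rw [← hv]; ring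
    have e' : 4 / 5 * r * (v - ε) = 4 / 5 * (1 / 5 - r * ε) := by rw [← hv]; ring
    have h4 := mul_nonneg r0.le e0
    linarith

end Pool.Agent.MP_ebf981_lc.LN
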