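import Pool.Agent.MP_ebf981_lc.LNReal

/-! Fourier multipliers, non-uniform noise and random blocks. -/

namespace Pool.Agent.MP_ebf981_lc.LN

open Finset

variable {n M : ℕ}

/-- the Fourier multiplier `γ` applied to `F` -/
noncomputable def D (F : (Fin n → Bool) → ℝ) (γ : Finset (Fin n) → ℝ) (x : Fin n → Bool) : ℝ :=
  ∑ S, γ S * hat F S * chi S x

theorem hat_chi (S S' : Finset (Fin n)) : hat (chi S) S' = if S = S' then 1 else 0 := by
  split_ifs with h
  · subst h
    rw [hat, ← E_const (n := n) 1]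
    refine E_congr fun x => ?_
    simp only [chi, ← pow_two, ← prod_pow, sg_sq, prod_const_one]
  · simp only [hat, E, chi_eq, ← prod_mul_distrib]
    rw [sum_prod (fun j b => (if j ∈ S then sg b else 1) * (if j ∈ S' then sg b else 1))]
    obtain ⟨j, hj⟩ : ∃ j, ¬ (j ∈ S ↔ j ∈ S') := not_forall.1 fun h' => h (Finset.ext h')
    rw [prod_eq_zero (mem_univ j), mul_zero]
    by_cases a : j ∈ S <;> by_cases b : j ∈ S' <;> simp_all [sg]

theorem hat_D (F : (Fin n → Bool) → ℝ) (γ : Finset (Fin n) → ℝ) (S : Finset (Fin n)) :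
    hat (D F γ) S = γ S * hat F S := by
  have e : hat (D F γ) S = ∑ S', γ S' * hat F S' * hat (chi S') S := by
    rw [hat]
    simp only [D, sum_mul]
    rw [E_sum]
    refine sum_congr rfl fun S' _ => ?_
    rw [hat.eq_1 (chi S'), ← E_mul]
    exact E_congr fun x => by ring
  simp [e, hat_chi]

theorem E_DD (F : (Fin n → Bool) → ℝ) (γ γ' : Finset (Fin n) → ℝ) :
    E (fun x => D F γ x * D F γ' x) = ∑ S, γ S * γ' S * hat F S ^ 2 := by
  rw [planch]
  exact sum_congr rfl fun S _ => by rw [hat_D, hat_D]; ring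

theorem D_const (F : (Fin n → Bool) → ℝ) (c : ℝ) (x : Fin n → Bool) :
    D F (fun _ => c) x = c * F x := by
  rw [expand F x, D, mul_sum]
  exact sum_congr rfl fun S _ => by ring

theorem D_lin (F : (Fin n → Bool) → ℝ) (a b : ℝ) (γ γ' : Finset (Fin n) → ℝ) (x : Fin n → Bool) :
    D F (fun S => a * γ S + b * γ' S) x = a * D F γ x + b * D F γ' x := by
  simp only [D, mul_sum, ← sum_add_distrib]
  exact sum_congr rfl fun S _ => by ring

theorem D_sum {ι : Type} [Fintype ι] (F : (Fin n → Bool) → ℝ) (c : ι → ℝ)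
    (γ : ι → Finset (Fin n) → ℝ) (x : Fin n → Bool) :
    D F (fun S => ∑ i, c i * γ i S) x = ∑ i, c i * D F (γ i) x := by
  simp only [D, mul_sum, sum_mul]
  rw [sum_comm]
  exact sum_congr rfl fun i _ => sum_congr rfl fun S _ => by ring

theorem D_half (F : (Fin n → Bool) → ℝ) (γ : Finset (Fin n) → ℝ) (x : Fin n → Bool) :
    D F (fun S => (1 - γ S) / 2) x = (F x - D F γ x) / 2 := by
  have := D_lin F (1 / 2) (-1 / 2) (fun _ => 1) γ x
  rw [D_const] at this
  rw [show (fun S => (1 - γ S) / 2) = fun S => 1 / 2 * 1 + -1 / 2 * γ S from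
    funext fun S => by ring, this]
  ring

theorem shift_eq (F : (Fin n → Bool) → ℝ) (c : Fin n → ℝ) {x x' : Fin n → Bool}
    (h : ∀ j, sg (x' j) = c j * sg (x j)) : F x' = D F (fun S => ∏ j ∈ S, c j) x := by
  rw [expand F x', D]
  refine sum_congr rfl fun S _ => ?_
  simp only [chi, h, prod_mul_distrib]
  ring

def kv (η : Fin n → ℝ) (x y : Fin n → Bool) : ℝ := ∏ j, (if y j = x j then 1 - η j else η j)

theorem kv_chi (η : Fin n → ℝ) (S : Finset (Fin n)) (x : Fin n → Bool) :
    ∑ y, kv η x y * chi S y = (∏ j ∈ S, (1 - 2 * η j)) * chi S x := by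
  simp only [kv, chi_eq, ← prod_mul_distrib]
  rw [sum_prod (fun j b => (if b = x j then 1 - η j else η j) * (if j ∈ S then sg b else 1)),
    ← univ_inter S, ← prod_ite_mem, ← prod_mul_distrib, univ_inter]
  refine prod_congr rfl fun j _ => ?_
  by_cases h : j ∈ S <;> cases x j <;> simp [h, sg] <;> ring

theorem kv_D (η : Fin n → ℝ) (F : (Fin n → Bool) → ℝ) (x : Fin n → Bool) :
    ∑ y, kv η x y * F y = D F (fun S => ∏ j ∈ S, (1 - 2 * η j)) x := by
  rw [sum_congr rfl fun y _ => by rw [expand F y, mul_sum], sum_comm]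
  refine sum_congr rfl fun S _ => ?_
  rw [mul_comm _ (hat F S), mul_assoc, ← kv_chi, mul_sum]
  exact sum_congr rfl fun y _ => by ring

theorem kv_bound {η : Fin n → ℝ} (h0 : ∀ j, 0 ≤ η j) (h1 : ∀ j, η j ≤ 1)
    (f : (Fin n → Bool) → Bool) (x : Fin n → Bool) :
    |sg (f x) * D (fun y => sg (f y)) (fun S => ∏ j ∈ S, (1 - 2 * η j)) x| ≤ 1 := by
  have one : ∑ y, kv η x y = 1 := by simpa [chi] using kv_chi η ∅ x
  have ab : ∀ b, |sg b| = 1 := fun b => by cases b <;> simp [sg]
  rw [abs_mul, ab, one_mul, ← kv_D, ← one]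
  refine (abs_sum_le_sum_abs _ _).trans (sum_le_sum fun y _ => ?_)
  rw [abs_mul, ab, mul_one, abs_of_nonneg]
  exact prod_nonneg fun j _ => by have := h0 j; have := h1 j; split_ifs <;> linarith

theorem abs_prod_le (S : Finset (Fin n)) {c : Fin n → ℝ} (h : ∀ j, |c j| ≤ 1) :
    |∏ j ∈ S, c j| ≤ 1 := by
  rw [abs_prod]
  exact prod_le_one (fun j _ => abs_nonneg _) fun j _ => h j

theorem E_swap (H : (Fin n → Bool) → (Fin M → Bool) → ℝ) :
    E (fun x => E (fun z => H x z)) = E (fun z => E (fun x => H x z)) := by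
  simp only [E, mul_sum]
  rw [sum_comm]
  exact sum_congr rfl fun _ _ => sum_congr rfl fun _ _ => by ring

/-- weight of a label: `q` for no block, `ε` for each block -/
def wt (q ε : ℝ) (o : Option (Fin M)) : ℝ := o.elim q fun _ => ε

def W (q ε : ℝ) (π : Fin n → Option (Fin M)) : ℝ := ∏ j, wt q ε (π j)

theorem avg_prod {q ε : ℝ} (hq : q + M * ε = 1) (h : Option (Fin M) → ℝ) (S : Finset (Fin n)) :
    ∑ π : Fin n → Option (Fin M), W q ε π * ∏ j ∈ S, h (π j) =
      (q * h none + ε * ∑ t, h (some t)) ^ S.card := by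
  have e : ∀ π : Fin n → Option (Fin M), W q ε π * ∏ j ∈ S, h (π j) =
      ∏ j, wt q ε (π j) * (if j ∈ S then h (π j) else 1) := fun π => by
    rw [prod_mul_distrib, prod_ite_mem, univ_inter, W]
  simp only [e]
  rw [← Fintype.piFinset_univ, ← prod_univ_sum (fun _ => univ)
    (fun j o => wt q ε o * (if j ∈ S then h o else 1)), ← prod_const, ← univ_inter S,
    ← prod_ite_mem, univ_inter]
  refine prod_congr rfl fun j _ => ?_
  by_cases a : j ∈ S <;> simp [a, Fintype.sum_option, wt, mul_sum, hq]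

theorem W_sum {q ε : ℝ} (hq : q + M * ε = 1) :
    ∑ π : Fin n → Option (Fin M), W q ε π = 1 := by
  simpa using avg_prod hq (fun _ => 1) (∅ : Finset (Fin n))

theorem W_nonneg {q ε : ℝ} (q0 : 0 ≤ q) (e0 : 0 ≤ ε) (π : Fin n → Option (Fin M)) :
    0 ≤ W q ε π :=
  prod_nonneg fun j _ => by cases π j <;> simp [wt, q0, e0]

end Pool.Agent.MP_ebf981_lc.LN
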